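import Mathlib
import Pool.Agent.H104.ML.Stm

/-!
# Project ML (helper104), job KILL

`α^j P_t(j)` is the combination of the `α^i P_t(i)`, `i < D`, with the coefficients of `X^j mod g`.
-/

set_option autoImplicit false

open Polynomial Finset

namespace Pool.Agent.Q208.ML

open Pool.Agent.H104.ML

lemma pow_tau_dvd {D : ℕ} (α : Fin D → ℂ) (s : Fin D) :
    (X - C (α s)) ^ (tau α s + 1) ∣ ∏ r, (X - C (α r)) := by
  classical
  have h1 : (X - C (α s)) ^ (tau α s + 1) =
      ∏ r ∈ univ.filter (fun r => r ≤ s ∧ α r = α s), (X - C (α r)) := by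
    have h2 : ∏ r ∈ univ.filter (fun r => r ≤ s ∧ α r = α s), (X - C (α r)) =
        ∏ r ∈ univ.filter (fun r => r ≤ s ∧ α r = α s), (X - C (α s)) := by
      apply Finset.prod_congr rfl
      intro r hr
      rw [(mem_filter.1 hr).2.2]
    rw [h2, Finset.prod_const]
    congr 1
    have h3 : univ.filter (fun r => r ≤ s ∧ α r = α s) =
        insert s (univ.filter (fun r => r < s ∧ α r = α s)) := by
      ext r
      simp only [mem_filter, mem_univ, true_and, mem_insert]
      constructor
      · rintro ⟨h, h'⟩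
        rcases lt_or_eq_of_le h with h | h
        · exact Or.inr ⟨h, h'⟩
        · exact Or.inl h
      · rintro (h | ⟨h, h'⟩)
        · subst h
          exact ⟨le_rfl, rfl⟩
        · exact ⟨h.le, h'⟩
    rw [h3, card_insert_of_notMem (by simp)]
    unfold tau
    congr
  rw [h1]
  exact Finset.prod_dvd_prod_of_subset _ _ _ (subset_univ _)

theorem t_KILL (h : S_LEAD) : S_KILL := by
  intro g D α P hg hmap hP s j
  have hD : g.natDegree = D := by
    rw [← hg.natDegree_map (Int.castRingHom ℂ), hmap, natDegree_finsetProd_X_sub_C_eq_card]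
    simp
  -- the remainder
  set R : ℤ[X] := (X ^ j : ℤ[X]) %ₘ g with hR
  have hRc : ∀ i, R.coeff i = redc g i j := fun i => rfl
  have hR0 : ∀ i, D ≤ i → redc g i j = 0 := by
    intro i hi
    rw [← hRc]
    by_cases hg1 : g = 1
    · rw [hR, hg1, modByMonic_one]
      simp
    · apply coeff_eq_zero_of_natDegree_lt
      have := natDegree_modByMonic_lt (X ^ j : ℤ[X]) hg hg1
      rw [← hR] at this
      omega
  have hdiv : g ∣ X ^ j - R := by
    refine ⟨(X ^ j : ℤ[X]) /ₘ g, ?_⟩
    have := modByMonic_add_div (X ^ j : ℤ[X]) g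
    rw [hR]
    linear_combination -this
  have hdiv2 : (X - C (α s)) ^ (tau α s + 1) ∣ (X ^ j - R).map (Int.castRingHom ℂ) := by
    refine (pow_tau_dvd α s).trans ?_
    rw [← hmap]
    exact Polynomial.map_dvd _ hdiv
  obtain ⟨h', hh'⟩ := hdiv2
  have hL := h (tau α s) (α s) ((X - C (α s)) * h') (P (tau α s)) (hP _)
  have e1 : (X - C (α s)) ^ tau α s * ((X - C (α s)) * h') = (X ^ j - R).map (Int.castRingHom ℂ) := by
    rw [hh', pow_succ]
    ring
  rw [e1] at hL
  simp only [eval_mul, eval_sub, eval_X, eval_C, sub_self, zero_mul, mul_zero] at hL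
  have hdeg : ((X ^ j - R).map (Int.castRingHom ℂ)).natDegree < max j D + 1 := by
    refine Nat.lt_succ_of_le (natDegree_map_le.trans ((natDegree_sub_le _ _).trans ?_))
    refine max_le ?_ ?_
    · rw [natDegree_X_pow]
      exact le_max_left _ _
    · refine le_trans ?_ (le_max_right _ _)
      rw [← hD]
      exact natDegree_modByMonic_le _ hg
  rw [sum_over_range' _ (by intro i; simp) _ hdeg] at hL
  have e2 : ∀ i : ℕ, ((X ^ j - R).map (Int.castRingHom ℂ)).coeff i * α s ^ i *
      (((P (tau α s)).eval (i : ℝ) : ℝ) : ℂ) =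
      (if i = j then α s ^ j * (((P (tau α s)).eval (j : ℝ) : ℝ) : ℂ) else 0) -
        (redc g i j : ℂ) * (α s ^ i * (((P (tau α s)).eval (i : ℝ) : ℝ) : ℂ)) := by
    intro i
    rw [coeff_map, coeff_sub, coeff_X_pow, hRc]
    by_cases hij : i = j
    · subst hij
      simp
      ring
    · simp [hij]
      ring
  rw [Finset.sum_congr rfl fun i _ => e2 i, Finset.sum_sub_distrib, Finset.sum_ite_eq',
    if_pos (mem_range.2 (by have := le_max_left j D; omega))] at hL
  have e3 : ∑ i ∈ range (max j D + 1),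
      (redc g i j : ℂ) * (α s ^ i * (((P (tau α s)).eval (i : ℝ) : ℝ) : ℂ)) =
      ∑ i ∈ range D, (redc g i j : ℂ) * (α s ^ i * (((P (tau α s)).eval (i : ℝ) : ℝ) : ℂ)) := by
    symm
    apply Finset.sum_subset
    · intro i hi
      rw [mem_range] at hi ⊢
      have := le_max_right j D
      omega
    · intro i _ hi
      rw [mem_range, not_lt] at hi
      rw [hR0 i hi]
      simp
  rw [e3] at hL
  exact sub_eq_zero.1 hL

end Pool.Agent.Q208.ML
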